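import Mathlib
import Pool.Agent.K4H74.SC.Frob
import Pool.Agent.K4H74.SC.Core

/-!
# Deligne's conjecture for the Artin twists of a motive: the definitions

`M` is a pure motive over `ℚ` with coefficients in a field `F`, without Hodge numbers `h^{p,p}`
(for instance of odd weight), critical at `s = 0`, with `s = 0` in the region of absolute
convergence (for `M = M₀(s₀)`, `M₀` pure of weight `w`: `s₀ > w / 2 + 1`).
-/

set_option autoImplicit false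
set_option linter.unusedSectionVars false

namespace Pool.Agent.W2helper23.DEL

open NumberField Ideal IsDedekindDomain Pool.Agent.K4H74.SK

/-- The numerical data of the motive `M`. -/
structure Mot (F : Type) [Field F] where
  /-- the common dimension of the two eigenspaces of `F_∞` -/
  d : ℕ
  /-- `a (p ^ m)` is the trace of the `m`-th power of the Frobenius of the prime `p` on `M`; the
  value `0` is taken for the primes `p` of a finite set which contains the bad primes of `M` -/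
  a : ℕ → F
  /-- Deligne's period `c⁺(M)` in `(F ⊗ ℂ)ˣ` -/
  cP : (F →+* ℂ) → ℂˣ
  /-- Deligne's period `c⁻(M)` in `(F ⊗ ℂ)ˣ` -/
  cM : (F →+* ℂ) → ℂˣ
  /-- absolute convergence at `s = 0` -/
  growth : ∀ τ : F →+* ℂ, ∃ C θ : ℝ, 1 < θ ∧ ∀ q : ℕ, 0 < q → ‖τ (a q)‖ ≤ C * (q : ℝ) ^ (-θ)

variable {F : Type} [Field F] (M : Mot F)

section defs

variable {N : Type} [Field N] [NumberField N]

/-- The terms of `log L(M ⊗ χ, 0) = ∑ χ(p^n) a(p^n) / n`, for a character `χ` of `Gal(N/ℚ)` and an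
embedding `τ` of the coefficient field: `frobMean` is the mean of `χ` over the elements which
induce `x ↦ x ^ (p^n)` modulo a prime over `p`. -/
noncomputable def lTerm (τ : F →+* ℂ) (χ : (N ≃ₐ[ℚ] N) → ℂ)
    (x : HeightOneSpectrum (𝓞 ℚ) × ℕ+) : ℂ :=
  Pool.Agent.K4H74.SC.frobMean ℚ N χ x.1.asIdeal x.2
    * τ (M.a (absNorm x.1.asIdeal ^ (x.2 : ℕ))) / (x.2 : ℕ)

/-- `g` is the restriction of `σ` to `N`, for the embedding `φ` of `N` in `ℂ`. -/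
def IsRes (σ : ℂ →+* ℂ) (φ : N →+* ℂ) (g : N ≃ₐ[ℚ] N) : Prop := ∀ x, φ (g x) = σ (φ x)

/-- `r = L(M ⊗ χ, 0) / (c⁺(M)^(m⁺) c⁻(M)^(m⁻))`, where `m⁺, m⁻` are the multiplicities of the
eigenvalues `1, -1` of a complex conjugation `c` in `χ`. -/
def IsRatio (τ : F →+* ℂ) (χ : (N ≃ₐ[ℚ] N) → ℂ) (r : ℂ) : Prop :=
  ∃ (l : ℂ) (m m' : ℕ) (φ : N →+* ℂ) (c : N ≃ₐ[ℚ] N), HasSum (lTerm M τ χ) l ∧
    IsRes (starRingEnd ℂ) φ c ∧ χ 1 = m + m' ∧ χ c = m - m' ∧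
    r = Complex.exp l / ((M.cP τ : ℂ) ^ m * (M.cM τ : ℂ) ^ m')

/-- `δ = det ρ(g)`, where `χ` is the character of `ρ`. -/
def IsDet (χ : (N ≃ₐ[ℚ] N) → ℂ) (g : N ≃ₐ[ℚ] N) (δ : ℂ) : Prop :=
  ∃ (n : ℕ) (ρ : (N ≃ₐ[ℚ] N) →* Matrix (Fin n) (Fin n) ℂ), (∀ h, χ h = (ρ h).trace) ∧
    δ = (ρ g).det

/-- `u` is the defect of `M ⊗ χ` for the embedding `τ` of `F` and the automorphism `σ` of `ℂ`:
`(det χ(σ) ^ d r(χ))^σ = u r(χ^σ)`. By Deligne's formula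
`c⁺(M ⊗ χ) = c⁺(M)^(m⁺) c⁻(M)^(m⁻) δ(χ)^d`, with `δ(χ)^σ = det χ^σ(σ)⁻¹ δ(χ^σ)`, Deligne's
conjecture for `M ⊗ χ` says that `u = 1` for all `σ` and `τ`. -/
def IsDefect (σ : ℂ ≃+* ℂ) (τ : F →+* ℂ) (χ : (N ≃ₐ[ℚ] N) → ℂ) (u : ℂˣ) : Prop :=
  ∃ (φ : N →+* ℂ) (g : N ≃ₐ[ℚ] N) (δ r r' : ℂ), IsRes (σ : ℂ →+* ℂ) φ g ∧ IsDet χ g δ ∧
    IsRatio M τ χ r ∧ IsRatio M ((σ : ℂ →+* ℂ).comp τ) (fun h => σ (χ h)) r' ∧
    σ (δ ^ M.d * r) = u * r'

end defs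

/-- The character of `Gal(N/ℚ)` induced from the character `χ` of `Gal(L/K)`, for a Galois
extension `N/ℚ` which contains a copy of `L`:
`s ↦ |Gal(L/K)|⁻¹ ∑ χ(h)`, over the embeddings `J` of `L` in `N` and the `h` with `s J = J h`. -/
noncomputable def induce (N : Type) [Field N] [NumberField N] {K L : Type} [Field K]
    [Field L] [Algebra K L] (χ : (L ≃ₐ[K] L) → ℂ) (s : N ≃ₐ[ℚ] N) : ℂ :=
  (Nat.card (L ≃ₐ[K] L) : ℂ)⁻¹ *
    ∑ᶠ (J : L →+* N) (h : L ≃ₐ[K] L) (_ : ∀ x, s (J x) = J (h x)), χ h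

/-- `r` is the ratio `L(M ⊗ θ, 0) / (c⁺(M)^(m⁺) c⁻(M)^(m⁻))` for the character `θ` over `ℚ` induced
from the character `x.2` of `Gal(L/K)`. -/
def Ratio (M : Mot F) (τ : F →+* ℂ) (x : Pair) (r : ℂ) : Prop :=
  ∀ (N : Type) [Field N] [NumberField N] [IsGalois ℚ N], (x.1.L →+* N) →
    IsRatio M τ (induce N (K := x.1.K) (L := x.1.L) x.2) r

/-- `u` is the defect of `M ⊗ θ`, for the character `θ` over `ℚ` induced from the character `x.2`
of `Gal(L/K)`: `M ⊗ θ` is the restriction of scalars of the motive `M_K ⊗ x.2` over `K`. -/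
def Defect (M : Mot F) (σ : ℂ ≃+* ℂ) (τ : F →+* ℂ) (x : Pair) (u : ℂˣ) : Prop :=
  ∀ (N : Type) [Field N] [NumberField N] [IsGalois ℚ N], (x.1.L →+* N) →
    IsDefect M σ τ (induce N (K := x.1.K) (L := x.1.L) x.2) u

end Pool.Agent.W2helper23.DEL
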