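import Mathlib
import Pool.Agent.K4H74.SC.Inst
import Pool.Agent.W2helper23.DEL.Def
import Pool.Agent.W2helper73.SO.Infl
import Pool.Agent.W2helper1.SI.Rel

/-!
# Induction to the Galois extensions of `ℚ`
-/

set_option autoImplicit false
set_option linter.unusedSectionVars false

namespace Pool.Agent.W2helper23.DEL

open NumberField Pool.Agent.K4H74.ST Pool.Agent.K4H74.SC

section basic

variable {N : Type} [Field N] [NumberField N] [IsGalois ℚ N]
variable {K L : Type} [Field K] [NumberField K] [Field L] [NumberField L] [Algebra K L]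

open Pool.Agent.W2helper73.SO in
lemma induce_sum (χ : (L ≃ₐ[K] L) → ℂ) (s : N ≃ₐ[ℚ] N) :
    induce N χ s = (Nat.card (L ≃ₐ[K] L) : ℂ)⁻¹ *
      ∑ J : L →+* N, Dd χ J (⟨s, Subgroup.mem_top s⟩ : (⊤ : Subgroup (N ≃ₐ[ℚ] N))) := by
  classical
  rw [induce, finsum_eq_sum_of_fintype]
  congr 1
  refine Finset.sum_congr rfl fun J _ => ?_
  rw [finsum_eq_sum_of_fintype, Dd]
  refine Finset.sum_congr rfl fun h _ => ?_
  by_cases hx : ∀ x, s (J x) = J (h x)
  · rw [finsum_eq_single _ hx (fun h1 h2 => absurd rfl h2), if_pos]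
    exact hx
  · have : IsEmpty (∀ x, s (J x) = J (h x)) := ⟨hx⟩
    rw [finsum_of_isEmpty, if_neg]
    exact hx

open Pool.Agent.W2helper73.SO in
open Classical in
lemma induce_FN (χ : (L ≃ₐ[K] L) → ℂ) (s : N ≃ₐ[ℚ] N) :
    induce N χ s = (Nat.card (⊤ : Subgroup (N ≃ₐ[ℚ] N)) : ℂ) *
      FN (⊤ : Subgroup (N ≃ₐ[ℚ] N)) (fun t => if (t : N ≃ₐ[ℚ] N) = s then 1 else 0) K L χ := by
  rw [induce_sum, FN]
  have h3 : (Nat.card (⊤ : Subgroup (N ≃ₐ[ℚ] N)) : ℂ) ≠ 0 := by exact_mod_cast Nat.card_pos.ne'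
  rw [Finset.sum_eq_single (⟨s, Subgroup.mem_top s⟩ : (⊤ : Subgroup (N ≃ₐ[ℚ] N)))]
  · rw [if_pos rfl, one_mul, mul_inv, mul_assoc, ← mul_assoc, mul_inv_cancel₀ h3, one_mul]
  · intro b _ hb
    rw [if_neg, zero_mul]
    intro h
    exact hb (Subtype.ext h)
  · intro h
    exact absurd (Finset.mem_univ _) h

lemma induce_add (χ χ' : (L ≃ₐ[K] L) → ℂ) :
    induce N (χ + χ') = induce N χ + induce N χ' := by
  funext s
  rw [Pi.add_apply, induce_FN, induce_FN, induce_FN, Pool.Agent.W2helper73.SO.FN_add, mul_add]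

end basic

section tower

variable {N : Type} [Field N] [NumberField N] [IsGalois ℚ N]

lemma induce_ind (K F L : Type) [Field K] [NumberField K] [Field F] [NumberField F] [Field L]
    [NumberField L] [Algebra K F] [Algebra F L] [Algebra K L] [IsScalarTower K F L]
    (χ : (L ≃ₐ[F] L) → ℂ) : induce N (indChar K F L χ) = induce N χ := by
  funext s
  rw [induce_FN, induce_FN, Pool.Agent.W2helper73.SO.FN_ind]

lemma induce_infl (K L M : Type) [Field K] [NumberField K] [Field L] [NumberField L] [Field M]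
    [NumberField M] [Algebra K L] [IsGalois K L] [Algebra K M] [IsGalois K M] [Algebra L M]
    [IsScalarTower K L M] (e : M →+* N) (χ : (L ≃ₐ[K] L) → ℂ) :
    induce N (fun g : M ≃ₐ[K] M => χ (AlgEquiv.restrictNormalHom L g)) = induce N χ := by
  funext s
  rw [induce_FN, induce_FN, Pool.Agent.W2helper73.SO.FN_infl _ _ K L M e]

/-- the induced character of a character of `Gal(N/ℚ)` -/
lemma induce_self {χ : (N ≃ₐ[ℚ] N) → ℂ} (hχ : IsChar χ) : induce N χ = χ := by
  classical
  funext s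
  have hG : Nat.card (N ≃ₐ[ℚ] N) = Fintype.card (N →+* N) := by
    rw [Nat.card_eq_fintype_card]
    refine Fintype.card_congr ((algEquivEquivAlgHom ℚ N).toEquiv.trans ?_)
    exact
      { toFun := fun f => (f : N →+* N)
        invFun := fun f => f.toRatAlgHom
        left_inv := fun f => by ext x; rfl
        right_inv := fun f => by ext x; rfl }
  rw [induce_sum, Finset.sum_congr rfl (g := fun _ => χ s), Finset.sum_const, nsmul_eq_mul,
    Finset.card_univ, ← hG, inv_mul_cancel_left₀]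
  · exact_mod_cast Nat.card_pos.ne'
  · intro J _
    obtain ⟨t, ht⟩ := Pool.Agent.W2helper73.SO.exists_aut (N := N) (RingHom.id N) J
    have h1 := Pool.Agent.W2helper73.SO.Dd_eq (N := N) ⊤ χ
      (s := (⟨s, Subgroup.mem_top s⟩ : (⊤ : Subgroup (N ≃ₐ[ℚ] N)))) (J := J) (h := t⁻¹ * s * t)
      (fun x => by
        rw [← ht, ← ht]
        change s (t x) = t (t⁻¹ (s (t x)))
        exact (AlgEquiv.apply_symm_apply t (s (t x))).symm)
    rw [h1]
    have h2 := isChar_class hχ s t⁻¹
    rwa [inv_inv] at h2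

end tower

section up

variable {N : Type} [Field N] [NumberField N] [IsGalois ℚ N]
variable {K L : Type} [Field K] [NumberField K] [Field L] [NumberField L] [Algebra K L]
  [IsGalois K L]

/-- the induced character as a character induced in a tower -/
lemma induce_tower (j : L →+* N) {χ : (L ≃ₐ[K] L) → ℂ} (hχ : IsChar χ) :
    ∃ θ : (N ≃ₐ[ℚ] N) → ℂ, IsChar θ ∧ induce N χ = θ ∧
      ∀ (N' : Type) [Field N'] [NumberField N'] [IsGalois ℚ N'] (_ : N →+* N'),
        induce N' χ = induce N' θ := by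
  let _ : Algebra L N := j.toAlgebra
  let _ : Algebra K N := ((algebraMap L N).comp (algebraMap K L)).toAlgebra
  have htow : IsScalarTower K L N := IsScalarTower.of_algebraMap_eq fun x => rfl
  have htow2 : IsScalarTower ℚ K N := inferInstance
  have hgal : IsGalois K N := IsGalois.tower_top_of_isGalois ℚ K N
  have hc : IsChar (fun g : N ≃ₐ[K] N => χ (AlgEquiv.restrictNormalHom L g)) := hχ.comp _
  have hθ := isChar_indChar (K := ℚ) (F := K) (L := N) hc
  refine ⟨_, hθ, ?_, fun N' _ _ _ e => ?_⟩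
  · rw [← induce_self hθ, induce_ind ℚ K N, induce_infl K L N (RingHom.id N)]
  · rw [induce_ind ℚ K N, induce_infl K L N e]

lemma induce_isChar (j : L →+* N) {χ : (L ≃ₐ[K] L) → ℂ} (hχ : IsChar χ) :
    IsChar (induce N χ) := by
  obtain ⟨θ, h1, h2, -⟩ := induce_tower j hχ
  rw [h2]
  exact h1

lemma induce_up {N' : Type} [Field N'] [NumberField N'] [IsGalois ℚ N'] [Algebra N N']
    (j : L →+* N) {χ : (L ≃ₐ[K] L) → ℂ} (hχ : IsChar χ) :
    induce N' χ = fun g => induce N χ (AlgEquiv.restrictNormalHom N g) := by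
  obtain ⟨θ, h1, h2, h3⟩ := induce_tower j hχ
  have htow : IsScalarTower ℚ N N' := inferInstance
  have h4 : IsChar (fun g : N' ≃ₐ[ℚ] N' => θ (AlgEquiv.restrictNormalHom N g)) := h1.comp _
  rw [h2, h3 N' (algebraMap N N'), ← induce_self h4]
  exact (induce_infl ℚ N N' (RingHom.id N') θ).symm

end up

/-- a rule for the characters over `ℚ` -/
structure QRule (M : Type) [CommGroup M] where
  /-- the value -/
  v : ∀ (N : Type) [Field N] [NumberField N] [IsGalois ℚ N], ((N ≃ₐ[ℚ] N) → ℂ) → M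
  add : ∀ (N : Type) [Field N] [NumberField N] [IsGalois ℚ N] (χ χ' : (N ≃ₐ[ℚ] N) → ℂ),
    IsChar χ → IsChar χ' → v N (χ + χ') = v N χ * v N χ'
  infl : ∀ (N N' : Type) [Field N] [NumberField N] [IsGalois ℚ N] [Field N'] [NumberField N']
    [IsGalois ℚ N'] [Algebra N N'] (χ : (N ≃ₐ[ℚ] N) → ℂ), IsChar χ →
    v N' (fun g => χ (AlgEquiv.restrictNormalHom N g)) = v N χ

section rule

variable {M : Type} [CommGroup M] (R : QRule M)

lemma rule_indep {K L : Type} [Field K] [NumberField K] [Field L] [NumberField L] [Algebra K L]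
    [IsGalois K L] {χ : (L ≃ₐ[K] L) → ℂ} (hχ : IsChar χ)
    (N N' : Type) [Field N] [NumberField N] [IsGalois ℚ N] [Field N'] [NumberField N']
    [IsGalois ℚ N'] (j : L →+* N) (j' : L →+* N') :
    R.v N (induce N χ) = R.v N' (induce N' χ) := by
  obtain ⟨W, i1, i2, i3, hW⟩ := Pool.Agent.W2helper1.SI.exists_common
    ![⟨⟨ℚ, N⟩, fun _ => 1⟩, ⟨⟨ℚ, N'⟩, fun _ => 1⟩]
  obtain ⟨e⟩ : Nonempty (N →+* W) := hW 0
  obtain ⟨e'⟩ : Nonempty (N' →+* W) := hW 1
  have h1 : R.v W (induce W χ) = R.v N (induce N χ) := by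
    let _ : Algebra N W := e.toAlgebra
    rw [induce_up (N := N) (N' := W) j hχ]
    exact R.infl N W _ (induce_isChar j hχ)
  have h2 : R.v W (induce W χ) = R.v N' (induce N' χ) := by
    let _ : Algebra N' W := e'.toAlgebra
    rw [induce_up (N := N') (N' := W) j' hχ]
    exact R.infl N' W _ (induce_isChar j' hχ)
  rw [← h1, h2]

/-- the value of the induced character -/
def IsV (K L : Type) [Field K] [NumberField K] [Field L] [NumberField L] [Algebra K L]
    (χ : (L ≃ₐ[K] L) → ℂ) (v : M) : Prop :=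
  ∀ (N : Type) [Field N] [NumberField N] [IsGalois ℚ N] (_ : L →+* N), R.v N (induce N χ) = v

lemma exists_isV {K L : Type} [Field K] [NumberField K] [Field L] [NumberField L] [Algebra K L]
    [IsGalois K L] {χ : (L ≃ₐ[K] L) → ℂ} (hχ : IsChar χ) : ∃ v, IsV R K L χ v := by
  obtain ⟨N, i1, i2, i3, i4⟩ := Pool.Agent.K4H34.ST.exists_gal L
  exact ⟨_, fun N' _ _ _ j' => rule_indep R hχ N' N j' (algebraMap L N)⟩

lemma isV_unique {K L : Type} [Field K] [NumberField K] [Field L] [NumberField L] [Algebra K L]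
    {χ : (L ≃ₐ[K] L) → ℂ} {v v' : M} (h : IsV R K L χ v) (h' : IsV R K L χ v') : v = v' := by
  obtain ⟨N, i1, i2, i3, i4⟩ := Pool.Agent.K4H34.ST.exists_gal L
  exact (h N (algebraMap L N)).symm.trans (h' N (algebraMap L N))

open Classical in
/-- the value as a function -/
noncomputable def vv (K L : Type) [Field K] [NumberField K] [Field L] [NumberField L] [Algebra K L]
    (χ : (L ≃ₐ[K] L) → ℂ) : M := if h : ∃ v, IsV R K L χ v then h.choose else 1

lemma vv_isV {K L : Type} [Field K] [NumberField K] [Field L] [NumberField L] [Algebra K L]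
    [IsGalois K L] {χ : (L ≃ₐ[K] L) → ℂ} (hχ : IsChar χ) : IsV R K L χ (vv R K L χ) := by
  have h := exists_isV R hχ
  rw [vv, dif_pos h]
  exact h.choose_spec

lemma vv_eq {K L : Type} [Field K] [NumberField K] [Field L] [NumberField L] [Algebra K L]
    [IsGalois K L] {χ : (L ≃ₐ[K] L) → ℂ} (hχ : IsChar χ) {v : M} (h : IsV R K L χ v) :
    vv R K L χ = v := isV_unique R (vv_isV R hχ) h

/-- **the inductive invariant of a rule for the characters over `ℚ`** -/
noncomputable def ofQ : ArtinInvariant M where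
  val K L _ _ _ _ _ _ χ := vv R K L χ
  val_add K L _ _ _ _ _ _ χ χ' h h' := by
    refine vv_eq R (h.add h') fun N _ _ _ j => ?_
    rw [induce_add, R.add N _ _ (induce_isChar j h) (induce_isChar j h'), vv_isV R h N j,
      vv_isV R h' N j]
  val_infl K L N _ _ _ _ _ _ _ _ _ _ _ _ χ h := by
    refine vv_eq R (h.comp _) fun N' _ _ _ j => ?_
    rw [induce_infl K L N j]
    exact vv_isV R h N' (j.comp (algebraMap L N))
  val_ind K F L _ _ _ _ _ _ _ _ _ _ _ _ χ h := by
    refine vv_eq R (isChar_indChar h) fun N' _ _ _ j => ?_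
    rw [induce_ind K F L]
    exact vv_isV R h N' j

lemma ofQ_val {K L : Type} [Field K] [NumberField K] [Field L] [NumberField L] [Algebra K L]
    [IsGalois K L] {χ : (L ≃ₐ[K] L) → ℂ} (hχ : IsChar χ) (N : Type) [Field N] [NumberField N]
    [IsGalois ℚ N] (j : L →+* N) : (ofQ R).val K L χ = R.v N (induce N χ) :=
  (vv_isV R hχ N j).symm

end rule

end Pool.Agent.W2helper23.DEL
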