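import Mathlib
import Pool.Agent.W2helper23.DEL.Def
import Pool.Agent.W2helper23.DEL.QI
import Pool.Agent.K4H74.SC.Link
import Pool.Agent.K4H74.SC.Hom

/-!
# The defects: existence, uniqueness and formal properties
-/

set_option autoImplicit false
set_option linter.unusedSectionVars false

namespace Pool.Agent.W2helper23.DEL

open NumberField Ideal IsDedekindDomain Pool.Agent.K4H74.ST Pool.Agent.K4H74.SC

section res

variable {N : Type} [Field N] [NumberField N] [IsGalois ℚ N]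

lemma exists_res (σ : ℂ →+* ℂ) (φ : N →+* ℂ) : ∃ g : N ≃ₐ[ℚ] N, IsRes σ φ g := by
  obtain ⟨s, hs⟩ := ComplexEmbedding.exists_comp_symm_eq_of_comp_eq (k := ℚ) φ (σ.comp φ)
    (by ext x; simp)
  exact ⟨s.symm, fun x => RingHom.congr_fun hs x⟩

lemma res_conj {σ : ℂ →+* ℂ} {φ φ' : N →+* ℂ} {g g' : N ≃ₐ[ℚ] N} (h : IsRes σ φ g)
    (h' : IsRes σ φ' g') : ∃ t : N ≃ₐ[ℚ] N, g' = t * g * t⁻¹ := by
  obtain ⟨s, hs⟩ := ComplexEmbedding.exists_comp_symm_eq_of_comp_eq (k := ℚ) φ φ'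
    (by ext x; simp)
  refine ⟨s, ?_⟩
  have hs' : ∀ x, φ' x = φ (s⁻¹ x) := fun x => (RingHom.congr_fun hs x).symm
  ext x
  apply φ'.injective
  rw [h' x, hs' x, ← h, hs']
  change _ = φ (s⁻¹ (s (g (s⁻¹ x))))
  congr 1
  exact (AlgEquiv.symm_apply_apply s _).symm

lemma pow_conj (g t : N ≃ₐ[ℚ] N) (k : ℕ) : (t * g * t⁻¹) ^ k = t * g ^ k * t⁻¹ := conj_pow

lemma star_sq {φ : N →+* ℂ} {c : N ≃ₐ[ℚ] N} (h : IsRes (starRingEnd ℂ) φ c) : c * c = 1 := by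
  ext x
  apply φ.injective
  change φ (c (c x)) = φ x
  rw [h, h, Complex.conj_conj]

lemma res_down {N' : Type} [Field N'] [NumberField N'] [IsGalois ℚ N'] [Algebra N N']
    {σ : ℂ →+* ℂ} {φ : N' →+* ℂ} {g : N' ≃ₐ[ℚ] N'} (h : IsRes σ φ g) :
    IsRes σ (φ.comp (algebraMap N N')) (AlgEquiv.restrictNormalHom N g) := by
  intro x
  rw [RingHom.comp_apply, RingHom.comp_apply, res_apply]
  exact h _

end res

section lval

variable {F : Type} [Field F] (M : Mot F) (τ : F →+* ℂ)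
variable {N : Type} [Field N] [NumberField N]

lemma lTerm_summable (χ : (N ≃ₐ[ℚ] N) → ℂ) : Summable (lTerm M τ χ) := by
  obtain ⟨C, θ, hθ, hb⟩ := M.growth τ
  have h1 : Summable (logTerm ℚ N χ (θ : ℂ)) := logTerm_summable χ (by simpa using hθ)
  refine Summable.of_norm_bounded ((h1.norm).mul_left C) fun x => ?_
  obtain ⟨q, n⟩ := x
  have hN : (2 : ℝ) ≤ (absNorm q.asIdeal : ℕ) := by exact_mod_cast two_le_absNorm q
  have hN0 : (0 : ℝ) < (absNorm q.asIdeal : ℕ) := by linarith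
  rw [lTerm, logTerm, norm_div, norm_div, norm_mul, norm_mul, Complex.norm_natCast]
  have h5 : ‖(absNorm q.asIdeal : ℂ) ^ (((n : ℕ) : ℂ) * (θ : ℂ))‖
      = ((absNorm q.asIdeal : ℕ) : ℝ) ^ ((n : ℕ) * θ) := by
    have h6 := Complex.norm_cpow_eq_rpow_re_of_pos hN0 (((n : ℕ) : ℂ) * (θ : ℂ))
    have h7 : (((n : ℕ) : ℂ) * (θ : ℂ)).re = (n : ℕ) * θ := by
      rw [Complex.mul_re, Complex.natCast_re, Complex.natCast_im, zero_mul, sub_zero,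
        Complex.ofReal_re]
    rw [h7] at h6
    exact_mod_cast h6
  rw [h5]
  have h8 := hb (absNorm q.asIdeal ^ (n : ℕ)) (pow_pos (by exact_mod_cast hN0) _)
  have h9 : (((absNorm q.asIdeal ^ (n : ℕ) : ℕ) : ℝ)) ^ (-θ)
      = (((absNorm q.asIdeal : ℕ) : ℝ) ^ ((n : ℕ) * θ))⁻¹ := by
    rw [Nat.cast_pow, ← Real.rpow_natCast, ← Real.rpow_mul hN0.le, ← Real.rpow_neg hN0.le]
    congr 1
    ring
  rw [h9] at h8
  have hn1 : (0 : ℝ) < (n : ℕ) := by exact_mod_cast n.pos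
  have hp : (0 : ℝ) < ((absNorm q.asIdeal : ℕ) : ℝ) ^ ((n : ℕ) * θ) := Real.rpow_pos_of_pos hN0 _
  calc ‖frobMean ℚ N χ q.asIdeal n‖ * ‖τ (M.a (absNorm q.asIdeal ^ (n : ℕ)))‖ / (n : ℕ)
      ≤ ‖frobMean ℚ N χ q.asIdeal n‖ *
          (C * (((absNorm q.asIdeal : ℕ) : ℝ) ^ ((n : ℕ) * θ))⁻¹) / (n : ℕ) := by gcongr
    _ = C * (‖frobMean ℚ N χ q.asIdeal n‖ /
          ((n : ℕ) * ((absNorm q.asIdeal : ℕ) : ℝ) ^ ((n : ℕ) * θ))) := by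
        field_simp

lemma lTerm_add (χ χ' : (N ≃ₐ[ℚ] N) → ℂ) :
    lTerm M τ (χ + χ') = fun x => lTerm M τ χ x + lTerm M τ χ' x := by
  funext x
  have := x.1.isPrime
  rw [lTerm, lTerm, lTerm, frobMean_add χ χ' x.1.ne_bot, add_mul, add_div]

lemma lTerm_infl [IsGalois ℚ N] {N' : Type} [Field N'] [NumberField N'] [IsGalois ℚ N']
    [Algebra N N'] {χ : (N ≃ₐ[ℚ] N) → ℂ} (hχ : IsChar χ) :
    lTerm M τ (fun g : N' ≃ₐ[ℚ] N' => χ (AlgEquiv.restrictNormalHom N g)) = lTerm M τ χ := by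
  funext x
  have := x.1.isPrime
  rw [lTerm, lTerm, frobMean_infl (isChar_class hχ) x.1.ne_bot]

end lval

section signs

/-- the multiplicities of the eigenvalues of an involution -/
lemma exists_mult {G : Type} [Group G] {χ : G → ℂ} (h : IsChar χ) {c : G} (hc : c * c = 1) :
    ∃ m m' : ℕ, χ 1 = m + m' ∧ χ c = m - m' := by
  obtain ⟨V, _, _, _, ρ, rfl⟩ := h
  have hcc : ρ c * ρ c = 1 := by rw [← map_mul, hc, map_one]
  let P : V →ₗ[ℂ] V := (1 / 2 : ℂ) • (1 + ρ c)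
  let Q : V →ₗ[ℂ] V := (1 / 2 : ℂ) • (1 - ρ c)
  have hP : IsIdempotentElem P := by
    change ((1 / 2 : ℂ) • (1 + ρ c)) * ((1 / 2 : ℂ) • (1 + ρ c)) = (1 / 2 : ℂ) • (1 + ρ c)
    rw [smul_mul_smul_comm, mul_add, add_mul, add_mul, hcc, one_mul, mul_one, one_mul]
    have : (1 : V →ₗ[ℂ] V) + ρ c + (ρ c + 1) = (2 : ℂ) • (1 + ρ c) := by
      rw [two_smul]; abel
    rw [this, smul_smul]
    norm_num
  have hQ : IsIdempotentElem Q := by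
    change ((1 / 2 : ℂ) • (1 - ρ c)) * ((1 / 2 : ℂ) • (1 - ρ c)) = (1 / 2 : ℂ) • (1 - ρ c)
    rw [smul_mul_smul_comm, mul_sub, sub_mul, sub_mul, hcc, one_mul, mul_one, one_mul]
    have : (1 : V →ₗ[ℂ] V) - ρ c - (ρ c - 1) = (2 : ℂ) • (1 - ρ c) := by
      rw [two_smul]; abel
    rw [this, smul_smul]
    norm_num
  have h1 : LinearMap.trace ℂ V P = (Module.finrank ℂ (LinearMap.range P) : ℂ) :=
    (LinearMap.IsIdempotentElem.isProj_range _ hP).trace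
  have h2 : LinearMap.trace ℂ V Q = (Module.finrank ℂ (LinearMap.range Q) : ℂ) :=
    (LinearMap.IsIdempotentElem.isProj_range _ hQ).trace
  refine ⟨Module.finrank ℂ (LinearMap.range P), Module.finrank ℂ (LinearMap.range Q), ?_, ?_⟩
  · rw [← h1, ← h2, ← map_add]
    change LinearMap.trace ℂ V (ρ 1) = _
    congr 1
    change _ = (1 / 2 : ℂ) • (1 + ρ c) + (1 / 2 : ℂ) • (1 - ρ c)
    rw [← smul_add, map_one]
    have : (1 : V →ₗ[ℂ] V) + ρ c + (1 - ρ c) = (2 : ℂ) • 1 := by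
      rw [two_smul]; abel
    rw [this, smul_smul]
    norm_num
  · rw [← h1, ← h2, ← map_sub]
    change LinearMap.trace ℂ V (ρ c) = _
    congr 1
    change _ = (1 / 2 : ℂ) • (1 + ρ c) - (1 / 2 : ℂ) • (1 - ρ c)
    rw [← smul_sub]
    have : (1 : V →ₗ[ℂ] V) + ρ c - (1 - ρ c) = (2 : ℂ) • ρ c := by
      rw [two_smul]; abel
    rw [this, smul_smul]
    norm_num

end signs

section ratio

variable {F : Type} [Field F] (M : Mot F) (τ : F →+* ℂ)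
variable {N : Type} [Field N] [NumberField N] [IsGalois ℚ N]

/-- the ratio, for a given embedding and complex conjugation -/
def RatAt (φ : N →+* ℂ) (c : N ≃ₐ[ℚ] N) (χ : (N ≃ₐ[ℚ] N) → ℂ) (r : ℂ) : Prop :=
  ∃ (l : ℂ) (m m' : ℕ), HasSum (lTerm M τ χ) l ∧
    IsRes (starRingEnd ℂ) φ c ∧ χ 1 = m + m' ∧ χ c = m - m' ∧
    r = Complex.exp l / ((M.cP τ : ℂ) ^ m * (M.cM τ : ℂ) ^ m')

variable {M τ}

lemma RatAt.of {φ : N →+* ℂ} {c : N ≃ₐ[ℚ] N} {χ : (N ≃ₐ[ℚ] N) → ℂ} {r : ℂ}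
    (h : RatAt M τ φ c χ r) : IsRatio M τ χ r := by
  obtain ⟨l, m, m', h1, h2, h3, h4, h5⟩ := h
  exact ⟨l, m, m', φ, c, h1, h2, h3, h4, h5⟩

lemma IsRatio.at {χ : (N ≃ₐ[ℚ] N) → ℂ} {r : ℂ} (h : IsRatio M τ χ r) (hχ : IsChar χ)
    (φ : N →+* ℂ) {c : N ≃ₐ[ℚ] N} (hc : IsRes (starRingEnd ℂ) φ c) : RatAt M τ φ c χ r := by
  obtain ⟨l, m, m', φ', c', h1, h2, h3, h4, h5⟩ := h
  obtain ⟨t, ht⟩ := res_conj hc h2
  refine ⟨l, m, m', h1, hc, h3, ?_, h5⟩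
  rw [← h4, ht, isChar_class hχ]

lemma ratAt_exists (M : Mot F) (τ : F →+* ℂ) {χ : (N ≃ₐ[ℚ] N) → ℂ} (hχ : IsChar χ)
    (φ : N →+* ℂ) {c : N ≃ₐ[ℚ] N} (hc : IsRes (starRingEnd ℂ) φ c) :
    ∃ r, RatAt M τ φ c χ r := by
  obtain ⟨m, m', h1, h2⟩ := exists_mult hχ (star_sq hc)
  exact ⟨_, _, m, m', (lTerm_summable M τ χ).hasSum, hc, h1, h2, rfl⟩

lemma RatAt.ne {φ : N →+* ℂ} {c : N ≃ₐ[ℚ] N} {χ : (N ≃ₐ[ℚ] N) → ℂ} {r : ℂ}
    (h : RatAt M τ φ c χ r) : r ≠ 0 := by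
  obtain ⟨l, m, m', h1, h2, h3, h4, rfl⟩ := h
  exact div_ne_zero (Complex.exp_ne_zero _)
    (mul_ne_zero (pow_ne_zero _ (Units.ne_zero _)) (pow_ne_zero _ (Units.ne_zero _)))

lemma mult_unique {a b : ℂ} {m m' n n' : ℕ} (h1 : a = m + m') (h2 : b = m - m') (h3 : a = n + n')
    (h4 : b = n - n') : m = n ∧ m' = n' := by
  have e1 : (m : ℂ) = n := by
    have : (2 : ℂ) * m = 2 * n := by linear_combination -h1 - h2 + h3 + h4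
    exact mul_left_cancel₀ two_ne_zero this
  have e2 : (m' : ℂ) = n' := by
    have : (2 : ℂ) * m' = 2 * n' := by linear_combination -h1 + h2 + h3 - h4
    exact mul_left_cancel₀ two_ne_zero this
  exact ⟨by exact_mod_cast e1, by exact_mod_cast e2⟩

lemma RatAt.unique {φ : N →+* ℂ} {c : N ≃ₐ[ℚ] N} {χ : (N ≃ₐ[ℚ] N) → ℂ} {r r' : ℂ}
    (h : RatAt M τ φ c χ r) (h' : RatAt M τ φ c χ r') : r = r' := by
  obtain ⟨l, m, m', h1, h2, h3, h4, rfl⟩ := h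
  obtain ⟨l2, n, n', g1, g2, g3, g4, rfl⟩ := h'
  obtain ⟨rfl, rfl⟩ := mult_unique h3 h4 g3 g4
  rw [h1.unique g1]

lemma IsRatio.unique {χ : (N ≃ₐ[ℚ] N) → ℂ} {r r' : ℂ} (hχ : IsChar χ) (h : IsRatio M τ χ r)
    (h' : IsRatio M τ χ r') : r = r' := by
  obtain ⟨φ⟩ : Nonempty (N →+* ℂ) := inferInstance
  obtain ⟨c, hc⟩ := exists_res (starRingEnd ℂ) φ
  exact (h.at hχ φ hc).unique (h'.at hχ φ hc)

lemma IsRatio.ne {χ : (N ≃ₐ[ℚ] N) → ℂ} {r : ℂ} (hχ : IsChar χ) (h : IsRatio M τ χ r) : r ≠ 0 := by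
  obtain ⟨φ⟩ : Nonempty (N →+* ℂ) := inferInstance
  obtain ⟨c, hc⟩ := exists_res (starRingEnd ℂ) φ
  exact (h.at hχ φ hc).ne

lemma isRatio_exists (M : Mot F) (τ : F →+* ℂ) {χ : (N ≃ₐ[ℚ] N) → ℂ} (hχ : IsChar χ) :
    ∃ r, IsRatio M τ χ r := by
  obtain ⟨φ⟩ : Nonempty (N →+* ℂ) := inferInstance
  obtain ⟨c, hc⟩ := exists_res (starRingEnd ℂ) φ
  obtain ⟨r, hr⟩ := ratAt_exists M τ hχ φ hc
  exact ⟨r, hr.of⟩

lemma IsRatio.add {χ χ' : (N ≃ₐ[ℚ] N) → ℂ} {r r' : ℂ} (hχ : IsChar χ) (hχ' : IsChar χ')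
    (h : IsRatio M τ χ r) (h' : IsRatio M τ χ' r') : IsRatio M τ (χ + χ') (r * r') := by
  obtain ⟨φ⟩ : Nonempty (N →+* ℂ) := inferInstance
  obtain ⟨c, hc⟩ := exists_res (starRingEnd ℂ) φ
  obtain ⟨l, m, m', h1, h2, h3, h4, rfl⟩ := h.at hχ φ hc
  obtain ⟨l2, n, n', g1, g2, g3, g4, rfl⟩ := h'.at hχ' φ hc
  refine ⟨l + l2, m + n, m' + n', φ, c, ?_, hc, ?_, ?_, ?_⟩
  · rw [lTerm_add]
    exact h1.add g1
  · rw [Pi.add_apply, h3, g3]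
    push_cast
    ring
  · rw [Pi.add_apply, h4, g4]
    push_cast
    ring
  · rw [Complex.exp_add, div_mul_div_comm, pow_add, pow_add]
    congr 1
    ring

lemma IsRatio.infl {N' : Type} [Field N'] [NumberField N'] [IsGalois ℚ N'] [Algebra N N']
    {χ : (N ≃ₐ[ℚ] N) → ℂ} {r : ℂ} (hχ : IsChar χ) (h : IsRatio M τ χ r) :
    IsRatio M τ (fun g : N' ≃ₐ[ℚ] N' => χ (AlgEquiv.restrictNormalHom N g)) r := by
  obtain ⟨φ⟩ : Nonempty (N' →+* ℂ) := inferInstance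
  obtain ⟨c, hc⟩ := exists_res (starRingEnd ℂ) φ
  obtain ⟨l, m, m', h1, h2, h3, h4, rfl⟩ := h.at hχ _ (res_down (N := N) hc)
  refine ⟨l, m, m', φ, c, ?_, hc, ?_, h4, rfl⟩
  · rw [lTerm_infl M τ hχ]
    exact h1
  · have h5 : AlgEquiv.restrictNormalHom N (1 : N' ≃ₐ[ℚ] N') = 1 := map_one _
    change χ (AlgEquiv.restrictNormalHom N (1 : N' ≃ₐ[ℚ] N')) = _
    rw [h5]
    exact h3

end ratio

section det

variable {N : Type} [Field N] [NumberField N] [IsGalois ℚ N]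

lemma IsDet.detOf {χ : (N ≃ₐ[ℚ] N) → ℂ} {g : N ≃ₐ[ℚ] N} {δ : ℂ} (h : IsDet χ g δ) :
    DetOf (fun k => χ (g ^ k)) δ := by
  obtain ⟨n, ρ, h1, rfl⟩ := h
  refine ⟨Fin n → ℂ, inferInstance, inferInstance, inferInstance, Matrix.toLin' (ρ g),
    fun k => ?_, ?_⟩
  · rw [← Matrix.toLin'_pow, Matrix.trace_toLin'_eq]
    change _ = χ (g ^ k)
    rw [h1, map_pow]
  · rw [LinearMap.det_toLin']

lemma isDet_exists {χ : (N ≃ₐ[ℚ] N) → ℂ} (hχ : IsChar χ) (g : N ≃ₐ[ℚ] N) :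
    ∃ δ, IsDet χ g δ := by
  obtain ⟨n, ρ, h⟩ := Pool.Agent.K4H74.SK.isChr_iff.mpr hχ
  exact ⟨_, n, ρ, h, rfl⟩

lemma IsDet.ne {χ : (N ≃ₐ[ℚ] N) → ℂ} {g : N ≃ₐ[ℚ] N} {δ : ℂ} (h : IsDet χ g δ) : δ ≠ 0 := by
  obtain ⟨n, ρ, h1, rfl⟩ := h
  have h2 : (ρ g).det * (ρ g⁻¹).det = 1 := by
    rw [← Matrix.det_mul, ← map_mul, mul_inv_cancel, map_one, Matrix.det_one]
  exact left_ne_zero_of_mul_eq_one h2

lemma IsDet.unique {χ : (N ≃ₐ[ℚ] N) → ℂ} {g g' : N ≃ₐ[ℚ] N} {δ δ' : ℂ} (hχ : IsChar χ)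
    (h : IsDet χ g δ) (h' : IsDet χ g' δ') (hg : ∃ t : N ≃ₐ[ℚ] N, g' = t * g * t⁻¹) : δ' = δ := by
  obtain ⟨t, rfl⟩ := hg
  refine h.detOf.sigma h'.detOf (RingHom.id ℂ) fun k => ?_
  rw [conj_pow, isChar_class hχ]
  rfl

lemma IsDet.sigma {χ : (N ≃ₐ[ℚ] N) → ℂ} {g : N ≃ₐ[ℚ] N} {δ δ' : ℂ} (σ : ℂ →+* ℂ)
    (h : IsDet χ g δ) (h' : IsDet (fun x => σ (χ x)) g δ') : δ' = σ δ :=
  h.detOf.sigma h'.detOf σ fun _ => rfl

lemma IsDet.infl {N' : Type} [Field N'] [NumberField N'] [IsGalois ℚ N'] [Algebra N N']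
    {χ : (N ≃ₐ[ℚ] N) → ℂ} {g : N' ≃ₐ[ℚ] N'} {δ : ℂ}
    (h : IsDet χ (AlgEquiv.restrictNormalHom N g) δ) :
    IsDet (fun g : N' ≃ₐ[ℚ] N' => χ (AlgEquiv.restrictNormalHom N g)) g δ := by
  obtain ⟨n, ρ, h1, rfl⟩ := h
  exact ⟨n, ρ.comp (AlgEquiv.restrictNormalHom N), fun x => h1 _, rfl⟩

end det

end Pool.Agent.W2helper23.DEL
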