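import Mathlib
import Pool.Agent.W2helper23.DEL.Rat
import Pool.Agent.K4H34.AL.Alg
import Pool.Agent.K4H34.AL.Comb2

/-!
# The defects as inductive invariants
-/

set_option autoImplicit false
set_option linter.unusedSectionVars false

namespace Pool.Agent.W2helper23.DEL

open NumberField Ideal IsDedekindDomain Pool.Agent.K4H74.ST Pool.Agent.K4H74.SC

variable {F : Type} [Field F] {M : Mot F}

section defect

variable {N : Type} [Field N] [NumberField N] [IsGalois ℚ N]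

/-- the defect, for a given embedding -/
def DefAt (M : Mot F) (σ : ℂ ≃+* ℂ) (τ : F →+* ℂ) (φ : N →+* ℂ) (g : N ≃ₐ[ℚ] N)
    (χ : (N ≃ₐ[ℚ] N) → ℂ) (u : ℂˣ) : Prop :=
  ∃ (δ r r' : ℂ), IsRes (σ : ℂ →+* ℂ) φ g ∧ IsDet χ g δ ∧
    IsRatio M τ χ r ∧ IsRatio M ((σ : ℂ →+* ℂ).comp τ) (fun h => σ (χ h)) r' ∧
    σ (δ ^ M.d * r) = u * r'

variable {σ : ℂ ≃+* ℂ} {τ : F →+* ℂ}

lemma DefAt.of {φ : N →+* ℂ} {g : N ≃ₐ[ℚ] N} {χ : (N ≃ₐ[ℚ] N) → ℂ} {u : ℂˣ}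
    (h : DefAt M σ τ φ g χ u) : IsDefect M σ τ χ u := by
  obtain ⟨δ, r, r', h1, h2, h3, h4, h5⟩ := h
  exact ⟨φ, g, δ, r, r', h1, h2, h3, h4, h5⟩

lemma defAt_exists (M : Mot F) (σ : ℂ ≃+* ℂ) (τ : F →+* ℂ) {φ : N →+* ℂ} {g : N ≃ₐ[ℚ] N}
    (hg : IsRes (σ : ℂ →+* ℂ) φ g) {χ : (N ≃ₐ[ℚ] N) → ℂ} (hχ : IsChar χ) :
    ∃ u, DefAt M σ τ φ g χ u := by
  have hσ : IsChar (fun h => σ (χ h)) := isChar_sigma hχ (σ : ℂ →+* ℂ)
  obtain ⟨δ, hδ⟩ := isDet_exists hχ g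
  obtain ⟨r, hr⟩ := isRatio_exists M τ hχ
  obtain ⟨r', hr'⟩ := isRatio_exists M ((σ : ℂ →+* ℂ).comp τ) hσ
  have h1 : σ (δ ^ M.d * r) ≠ 0 := by
    rw [Ne, EmbeddingLike.map_eq_zero_iff]
    exact mul_ne_zero (pow_ne_zero _ hδ.ne) (hr.ne hχ)
  have h2 : r' ≠ 0 := hr'.ne hσ
  refine ⟨Units.mk0 (σ (δ ^ M.d * r) / r') (div_ne_zero h1 h2), δ, r, r', hg, hδ, hr, hr', ?_⟩
  rw [Units.val_mk0, div_mul_cancel₀ _ h2]

lemma IsDefect.unique {χ : (N ≃ₐ[ℚ] N) → ℂ} {u u' : ℂˣ} (hχ : IsChar χ)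
    (h : IsDefect M σ τ χ u) (h' : IsDefect M σ τ χ u') : u = u' := by
  have hσ : IsChar (fun h => σ (χ h)) := isChar_sigma hχ (σ : ℂ →+* ℂ)
  obtain ⟨φ, g, δ, r, r', h1, h2, h3, h4, h5⟩ := h
  obtain ⟨φ', g', δ', s, s', g1, g2, g3, g4, g5⟩ := h'
  have e1 : δ' = δ := IsDet.unique hχ h2 g2 (res_conj h1 g1)
  have e2 : s = r := g3.unique hχ h3
  have e3 : s' = r' := g4.unique hσ h4
  subst e1 e2 e3
  rw [h5] at g5
  exact Units.ext (mul_right_cancel₀ (h4.ne hσ) g5)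

lemma isDefect_exists (M : Mot F) (σ : ℂ ≃+* ℂ) (τ : F →+* ℂ) {χ : (N ≃ₐ[ℚ] N) → ℂ}
    (hχ : IsChar χ) : ∃ u, IsDefect M σ τ χ u := by
  obtain ⟨φ⟩ : Nonempty (N →+* ℂ) := inferInstance
  obtain ⟨g, hg⟩ := exists_res (σ : ℂ →+* ℂ) φ
  obtain ⟨u, hu⟩ := defAt_exists M σ τ hg hχ
  exact ⟨u, hu.of⟩

lemma IsDefect.at {χ : (N ≃ₐ[ℚ] N) → ℂ} {u : ℂˣ} (hχ : IsChar χ) (h : IsDefect M σ τ χ u)
    {φ : N →+* ℂ} {g : N ≃ₐ[ℚ] N} (hg : IsRes (σ : ℂ →+* ℂ) φ g) : DefAt M σ τ φ g χ u := by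
  obtain ⟨u', hu'⟩ := defAt_exists M σ τ hg hχ
  rwa [h.unique hχ hu'.of]

lemma IsDefect.add {χ χ' : (N ≃ₐ[ℚ] N) → ℂ} {u u' : ℂˣ} (hχ : IsChar χ) (hχ' : IsChar χ')
    (h : IsDefect M σ τ χ u) (h' : IsDefect M σ τ χ' u') :
    IsDefect M σ τ (χ + χ') (u * u') := by
  have hσ : IsChar (fun h => σ (χ h)) := isChar_sigma hχ (σ : ℂ →+* ℂ)
  have hσ' : IsChar (fun h => σ (χ' h)) := isChar_sigma hχ' (σ : ℂ →+* ℂ)
  obtain ⟨φ⟩ : Nonempty (N →+* ℂ) := inferInstance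
  obtain ⟨g, hg⟩ := exists_res (σ : ℂ →+* ℂ) φ
  obtain ⟨δ, r, r', -, h2, h3, h4, h5⟩ := h.at hχ hg
  obtain ⟨δ', s, s', -, g2, g3, g4, g5⟩ := h'.at hχ' hg
  obtain ⟨ε, hε⟩ := isDet_exists (hχ.add hχ') g
  have e1 : ε = δ * δ' := hε.detOf.add h2.detOf g2.detOf fun k => rfl
  refine ⟨φ, g, ε, r * s, r' * s', hg, hε, h3.add hχ hχ' g3, ?_, ?_⟩
  · have h6 := h4.add hσ hσ' g4
    have h7 : (fun h => σ ((χ + χ') h)) = (fun h => σ (χ h)) + (fun h => σ (χ' h)) := by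
      funext h
      rw [Pi.add_apply, Pi.add_apply, map_add]
    rw [h7]
    exact h6
  · have h6 : ε ^ M.d * (r * s) = (δ ^ M.d * r) * (δ' ^ M.d * s) := by
      rw [e1, mul_pow]
      ring
    rw [h6, map_mul, h5, g5, Units.val_mul]
    ring

lemma infl_sigma {N' : Type} [Field N'] [NumberField N'] [IsGalois ℚ N'] [Algebra N N']
    {χ : (N ≃ₐ[ℚ] N) → ℂ} {r' : ℂ} (hχ : IsChar χ)
    (h4 : IsRatio M ((σ : ℂ →+* ℂ).comp τ) (fun h => σ (χ h)) r') :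
    IsRatio M ((σ : ℂ →+* ℂ).comp τ)
      (fun g : N' ≃ₐ[ℚ] N' => σ (χ (AlgEquiv.restrictNormalHom N g))) r' := by
  have hσ : IsChar (fun h => σ (χ h)) := isChar_sigma hχ (σ : ℂ →+* ℂ)
  have e4 := IsRatio.infl (N' := N') hσ h4
  exact e4

lemma infl_mk {N' : Type} [Field N'] [NumberField N'] [IsGalois ℚ N'] [Algebra N N']
    {χ : (N ≃ₐ[ℚ] N) → ℂ} {u : ℂˣ} (φ : N' →+* ℂ) (g : N' ≃ₐ[ℚ] N')
    (hg : IsRes (σ : ℂ →+* ℂ) φ g) (δ r r' : ℂ) (h5 : σ (δ ^ M.d * r) = u * r')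
    (e2 : IsDet (fun g : N' ≃ₐ[ℚ] N' => χ (AlgEquiv.restrictNormalHom N g)) g δ)
    (e3 : IsRatio M τ (fun g : N' ≃ₐ[ℚ] N' => χ (AlgEquiv.restrictNormalHom N g)) r)
    (e4 : IsRatio M ((σ : ℂ →+* ℂ).comp τ)
      (fun g : N' ≃ₐ[ℚ] N' => σ (χ (AlgEquiv.restrictNormalHom N g))) r') :
    IsDefect M σ τ (fun g : N' ≃ₐ[ℚ] N' => χ (AlgEquiv.restrictNormalHom N g)) u :=
  ⟨φ, g, δ, r, r', hg, e2, e3, e4, h5⟩

lemma IsDefect.infl {N' : Type} [Field N'] [NumberField N'] [IsGalois ℚ N'] [Algebra N N']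
    {χ : (N ≃ₐ[ℚ] N) → ℂ} {u : ℂˣ} (hχ : IsChar χ) (h : IsDefect M σ τ χ u) :
    IsDefect M σ τ (fun g : N' ≃ₐ[ℚ] N' => χ (AlgEquiv.restrictNormalHom N g)) u := by
  obtain ⟨φ⟩ : Nonempty (N' →+* ℂ) := inferInstance
  obtain ⟨g, hg⟩ := exists_res (σ : ℂ →+* ℂ) φ
  have hg' : IsRes (σ : ℂ →+* ℂ) (φ.comp (algebraMap N N')) (AlgEquiv.restrictNormalHom N g) :=
    res_down (N := N) hg
  obtain ⟨δ, r, r', -, h2, h3, h4, h5⟩ := IsDefect.at hχ h hg'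
  exact infl_mk φ g hg δ r r' h5 (IsDet.infl h2) (IsRatio.infl hχ h3) (infl_sigma hχ h4)

end defect

section rule

variable (M)

open Classical in
/-- the defect as a rule -/
noncomputable def defRule (σ : ℂ ≃+* ℂ) (τ : F →+* ℂ) : QRule ℂˣ where
  v N _ _ _ χ := if h : ∃ u, IsDefect M σ τ χ u then h.choose else 1
  add N _ _ _ χ χ' h h' := by
    have e := isDefect_exists M σ τ h
    have e' := isDefect_exists M σ τ h'
    have e'' := isDefect_exists M σ τ (h.add h')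
    rw [dif_pos e, dif_pos e', dif_pos e'']
    exact e''.choose_spec.unique (h.add h') (e.choose_spec.add h h' e'.choose_spec)
  infl N N' _ _ _ _ _ _ _ χ h := by
    have e := isDefect_exists M σ τ h
    have h' : IsChar (fun g : N' ≃ₐ[ℚ] N' => χ (AlgEquiv.restrictNormalHom N g)) := h.comp _
    have e' := isDefect_exists M σ τ h'
    rw [dif_pos e, dif_pos e']
    exact e'.choose_spec.unique h' (e.choose_spec.infl h)

lemma defRule_spec (σ : ℂ ≃+* ℂ) (τ : F →+* ℂ) {N : Type} [Field N] [NumberField N]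
    [IsGalois ℚ N] {χ : (N ≃ₐ[ℚ] N) → ℂ} (hχ : IsChar χ) :
    IsDefect M σ τ χ ((defRule M σ τ).v N χ) := by
  classical
  have e := isDefect_exists M σ τ hχ
  change IsDefect M σ τ χ (if h : ∃ u, IsDefect M σ τ χ u then h.choose else 1)
  rw [dif_pos e]
  exact e.choose_spec

/-- the ratio as a rule -/
noncomputable def ratRule (τ : F →+* ℂ) : QRule ℂˣ := by
  classical
  exact
  { v := fun N _ _ _ χ => if h : ∃ u : ℂˣ, IsRatio M τ χ u then h.choose else 1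
    add := fun N _ _ _ χ χ' h h' => by
      have ex : ∀ {θ : (N ≃ₐ[ℚ] N) → ℂ}, IsChar θ → ∃ u : ℂˣ, IsRatio M τ θ u := fun hθ => by
        obtain ⟨r, hr⟩ := isRatio_exists M τ hθ
        exact ⟨Units.mk0 r (hr.ne hθ), hr⟩
      have e := ex h
      have e' := ex h'
      have e'' := ex (h.add h')
      rw [dif_pos e, dif_pos e', dif_pos e'']
      refine Units.ext (e''.choose_spec.unique (h.add h') ?_)
      rw [Units.val_mul]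
      exact e.choose_spec.add h h' e'.choose_spec
    infl := fun N N' _ _ _ _ _ _ _ χ h => by
      have ex : ∀ {W : Type} [Field W] [NumberField W] [IsGalois ℚ W] {θ : (W ≃ₐ[ℚ] W) → ℂ},
          IsChar θ → ∃ u : ℂˣ, IsRatio M τ θ u := fun hθ => by
        obtain ⟨r, hr⟩ := isRatio_exists M τ hθ
        exact ⟨Units.mk0 r (hr.ne hθ), hr⟩
      have e := ex h
      have h' : IsChar (fun g : N' ≃ₐ[ℚ] N' => χ (AlgEquiv.restrictNormalHom N g)) := h.comp _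
      have e' := ex h'
      rw [dif_pos e, dif_pos e']
      exact Units.ext (e'.choose_spec.unique h' (e.choose_spec.infl h)) }

lemma ratRule_spec (τ : F →+* ℂ) {N : Type} [Field N] [NumberField N]
    [IsGalois ℚ N] {χ : (N ≃ₐ[ℚ] N) → ℂ} (hχ : IsChar χ) :
    IsRatio M τ χ ((ratRule M τ).v N χ : ℂˣ) := by
  classical
  have e : ∃ u : ℂˣ, IsRatio M τ χ u := by
    obtain ⟨r, hr⟩ := isRatio_exists M τ hχ
    exact ⟨Units.mk0 r (hr.ne hχ), hr⟩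
  change IsRatio M τ χ ((if h : ∃ u : ℂˣ, IsRatio M τ χ u then h.choose else 1 : ℂˣ) : ℂ)
  rw [dif_pos e]
  exact e.choose_spec

end rule

end Pool.Agent.W2helper23.DEL
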