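import Mathlib
import Pool.Agent.K4H74.ST.Fin
import Pool.Agent.K4H34.ST.G1
import Pool.Agent.K4H34.ST.G2
import Pool.Agent.W2helper1.SI.Rel
import Pool.Agent.W2helper23.DEL.Rat

/-!
# Inductive invariants which are trivial over totally complex fields: only the value at the trivial
character of `ℚ` matters, up to elements of finite order
-/

set_option autoImplicit false
set_option linter.unusedSectionVars false

namespace Pool.Agent.W2helper23.DEL

open NumberField NumberField.ComplexEmbedding Pool.Agent.R389 Pool.Agent.K4H74.ST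
  Pool.Agent.K4H34.ST Pool.Agent.K4H74

variable {Mg : Type} [CommGroup Mg] {A : ArtinInvariant Mg}

/-- all characters over totally complex fields -/
lemma val_complex_char (hC : TrivComplex A) {K L : Type} [Field K] [NumberField K] [Field L]
    [NumberField L] [Algebra K L] [IsGalois K L] (hK : IsTotallyComplex K)
    {χ : (L ≃ₐ[K] L) → ℂ} (hχ : IsChar χ) : A.val K L χ = 1 := by
  have h : A.val K L χ ∈ (⊥ : Subgroup Mg) := by
    refine brauer_red ⊥ (fun U ψ => ?_) hχ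
    rw [Subgroup.mem_bot]
    have h1 : IsTotallyComplex (IntermediateField.fixedField U) :=
      isTotallyComplex_of_algebra K (IntermediateField.fixedField U)
    exact val_complex hC h1 ψ
  exact h

lemma isRes_of {N : Type} [Field N] [NumberField N] {φ : N →+* ℂ} {c : N ≃ₐ[ℚ] N}
    (h : IsConj φ c) : IsRes (starRingEnd ℂ) φ c := fun x => h.eq x

/-- complex conjugations are conjugate -/
lemma conj_eq {N : Type} [Field N] [NumberField N] [IsGalois ℚ N] {χ : (N ≃ₐ[ℚ] N) → ℂ}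
    (hχ : IsChar χ) {c c' : N ≃ₐ[ℚ] N} (hc : c ∈ CC ℚ N) (hc' : c' ∈ CC ℚ N) : χ c = χ c' := by
  obtain ⟨φ, h⟩ := hc
  obtain ⟨φ', h'⟩ := hc'
  obtain ⟨t, rfl⟩ := res_conj (isRes_of h) (isRes_of h')
  exact (SC.isChar_class hχ c t).symm

lemma conj_ne {N : Type} [Field N] [NumberField N] [IsGalois ℚ N] {j : N} (hj : j * j = -1)
    {c : N ≃ₐ[ℚ] N} (hc : c ∈ CC ℚ N) : c ≠ 1 := by
  obtain ⟨φ, hφ⟩ := hc
  intro h
  have h1 : c j = - j := by
    refine sqrt_neg hφ ?_ ?_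
    · rw [hj, map_neg, map_one]; simp
    · rw [hj, map_neg, map_one]; simp
  rw [h] at h1
  have h3 : j = 0 := self_eq_neg.mp h1
  rw [h3, mul_zero] at hj
  exact one_ne_zero (neg_eq_zero.mp hj.symm)

/-- the core: the field contains a square root of `-1` -/
theorem tor_core (hC : TrivComplex A) (L : Type) [Field L] [NumberField L] [IsGalois ℚ L]
    {j : L} (hj : j * j = -1) {χ : (L ≃ₐ[ℚ] L) → ℂ} (hχ : IsChar χ) {c : L ≃ₐ[ℚ] L}
    (hc : c ∈ CC ℚ L) {a b : ℕ} (hab : χ c = a - b) :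
    ∃ n : ℕ, 0 < n ∧ (A.val ℚ L χ * A.val ℚ ℚ (fun _ => 1) ^ b) ^ n
      = (A.val ℚ ℚ (fun _ => 1) ^ a) ^ n := by
  classical
  obtain ⟨N, i1, i2, i3, i4, i5, i6, -, hN⟩ := exists_comm ℚ L
  obtain rfl : i3 = DivisionRing.toRatAlgebra := Subsingleton.elim _ _
  have hfinN : FiniteDimensional ℚ N := inferInstance
  let π : (N ≃ₐ[ℚ] N) →* (L ≃ₐ[ℚ] L) := AlgEquiv.restrictNormalHom L
  let u : (N ≃ₐ[ℚ] N) → ℂ := lc 1
  have hu : IsChar u := IsChar.lc 1
  let f₁ : (N ≃ₐ[ℚ] N) → ℂ := (fun g => χ (π g)) + b • u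
  let f₂ : (N ≃ₐ[ℚ] N) → ℂ := a • u
  have hχπ : IsChar (fun g => χ (π g)) := hχ.comp π
  have hf₁ : IsChar f₁ := hχπ.add (Pool.Agent.W2helper1.SI.IsChar.nsmul hu b)
  have hf₂ : IsChar f₂ := Pool.Agent.W2helper1.SI.IsChar.nsmul hu a
  have hu1 : ∀ g, u g = 1 := fun g => by simp [u, lc]
  have hθ : ∀ g, (f₁ - f₂) g = χ (π g) + b - a := by
    intro g
    change χ (π g) + (b • u) g - (a • u) g = _
    rw [Pi.smul_apply, Pi.smul_apply, hu1, nsmul_eq_mul, nsmul_eq_mul, mul_one, mul_one]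
  let S : AddSubgroup ((N ≃ₐ[ℚ] N) → ℂ) := TT A (K := ℚ) (L := N) ⊥
  have hfree : ∀ (V : Subgroup (N ≃ₐ[ℚ] N)), (∀ x ∈ CC ℚ N, x ∉ V) → ∀ f : V → ℂ, IsChar f →
      ind V f ∈ S := by
    intro V hV f hf
    have h6 : IsChar (ind V f) := SC.isChar_ind V hf
    have h7 : IsTotallyComplex (IntermediateField.fixedField V) := fixed_complex V hV
    let e : V ≃* (N ≃ₐ[IntermediateField.fixedField V] N) :=
      IntermediateField.subgroupEquivAlgEquiv V
    have hf' : IsChar (fun g : N ≃ₐ[IntermediateField.fixedField V] N => f (e.symm g)) :=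
      hf.comp e.symm.toMonoidHom
    change ind V f ∈ TT A (K := ℚ) (L := N) ⊥
    rw [mem_TT_char A h6, Subgroup.mem_bot, ind_fixed V f]
    exact (A.val_ind ℚ (IntermediateField.fixedField V) N _ hf').trans
      (val_complex_char hC h7 hf')
  have key : f₁ - f₂ ∈ sat S := by
    refine g1 (N ≃ₐ[ℚ] N) (f₁ - f₂) (fun g x => ?_) S (fun g => ?_)
    · rw [Pi.sub_apply, Pi.sub_apply, SC.isChar_class hf₁, SC.isChar_class hf₂]
    · by_cases hx : ∃ x ∈ CC ℚ N, x ∈ Subgroup.zpowers g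
      · obtain ⟨x, hxC, hxg⟩ := hx
        have h0 : gen g (f₁ - f₂) = 0 := by
          funext y
          change (if Subgroup.zpowers (y : N ≃ₐ[ℚ] N) = Subgroup.zpowers g
            then (f₁ - f₂) (y : N ≃ₐ[ℚ] N) else 0) = 0
          split_ifs with hy
          · rw [← hy] at hxg
            obtain ⟨k, hk⟩ := Subgroup.mem_zpowers_iff.mp hxg
            have hcomm : (y : N ≃ₐ[ℚ] N) * x = x * y := by
              rw [← hk, ← zpow_one_add, ← zpow_add_one, add_comm]
            have hxL : π x ∈ CC ℚ L := CC_res hxC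
            rcases hN x hxC y hcomm with h1 | h1
            · exfalso
              apply conj_ne hj hxL
              change π (y : N ≃ₐ[ℚ] N) = 1 at h1
              rw [← hk, map_zpow, h1, one_zpow]
            · change π (y : N ≃ₐ[ℚ] N) = π x at h1
              rw [hθ, h1, conj_eq hχ hxL hc, hab]
              ring
          · rfl
        rw [h0]
        have h1 : ind (Subgroup.zpowers g) (0 : Subgroup.zpowers g → ℂ) = 0 :=
          (indHom (Subgroup.zpowers g)).map_zero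
        rw [h1]
        exact zero_mem _
      · push Not at hx
        refine g2 (N ≃ₐ[ℚ] N) g S (f₁ - f₂) (fun x => (f₁ - f₂) x) (fun x _ => rfl)
          (fun V hV => ?_)
        have hV' : ∀ x ∈ CC ℚ N, x ∉ V := fun x hxC hxV => hx x hxC (hV hxV)
        have e1 := hfree V hV' (fun v => f₁ v) (hf₁.comp V.subtype)
        have e2 := hfree V hV' (fun v => f₂ v) (hf₂.comp V.subtype)
        have e3 : ind V (fun v : V => (f₁ - f₂) (v : N ≃ₐ[ℚ] N))
            = ind V (fun v : V => f₁ v) - ind V (fun v : V => f₂ v) :=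
          map_sub (indHom V) (fun v : V => f₁ v) (fun v : V => f₂ v)
        change ind V (fun v => (f₁ - f₂) (v : N ≃ₐ[ℚ] N)) ∈ S
        rw [e3]
        exact sub_mem e1 e2
  obtain ⟨n, hn, hnS⟩ := key
  refine ⟨n, hn, ?_⟩
  rw [smul_sub] at hnS
  have h1 := val_eq_of_sub A (Pool.Agent.W2helper1.SI.IsChar.nsmul hf₁ n)
    (Pool.Agent.W2helper1.SI.IsChar.nsmul hf₂ n) hnS
  rw [Pool.Agent.W2helper1.SI.val_nsmul A hf₁, Pool.Agent.W2helper1.SI.val_nsmul A hf₂,
    A.val_add ℚ N _ _ hχπ (Pool.Agent.W2helper1.SI.IsChar.nsmul hu b),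
    Pool.Agent.W2helper1.SI.val_nsmul A hu, Pool.Agent.W2helper1.SI.val_nsmul A hu] at h1
  have h2 : A.val ℚ N u = A.val ℚ ℚ (fun _ => 1) := by
    have h := A.val_infl ℚ ℚ N (lc 1) (IsChar.lc 1)
    have h3 : lc (1 : (ℚ ≃ₐ[ℚ] ℚ) →* ℂˣ) = fun _ => 1 := by
      funext g
      simp [lc]
    rw [h3] at h
    rw [← h]
    congr 1
  have h4 : A.val ℚ N (fun g => χ (π g)) = A.val ℚ L χ := A.val_infl ℚ L N χ hχ
  rw [h2, h4] at h1
  exact h1

/-- **the value at any character is, up to an element of finite order, the power of the value at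
the trivial character of `ℚ` with the trace of a complex conjugation as exponent** -/
theorem tor (hC : TrivComplex A) (L : Type) [Field L] [NumberField L] [IsGalois ℚ L]
    {χ : (L ≃ₐ[ℚ] L) → ℂ} (hχ : IsChar χ) {c : L ≃ₐ[ℚ] L}
    (hc : c ∈ CC ℚ L) {a b : ℕ} (hab : χ c = a - b) :
    ∃ n : ℕ, 0 < n ∧ (A.val ℚ L χ * A.val ℚ ℚ (fun _ => 1) ^ b) ^ n
      = (A.val ℚ ℚ (fun _ => 1) ^ a) ^ n := by
  obtain ⟨N, i1, i2, i3, i4, i5, i6, ⟨j, hj⟩, -⟩ := exists_comm ℚ L
  obtain rfl : i3 = DivisionRing.toRatAlgebra := Subsingleton.elim _ _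
  obtain ⟨φ⟩ : Nonempty (N →+* ℂ) := inferInstance
  obtain ⟨x, hx⟩ := exists_res (starRingEnd ℂ) φ
  have hxC : x ∈ CC ℚ N := ⟨φ, by ext y; exact (hx y).symm⟩
  have h1 : IsChar (fun g : N ≃ₐ[ℚ] N => χ (AlgEquiv.restrictNormalHom L g)) := hχ.comp _
  have h2 : (fun g : N ≃ₐ[ℚ] N => χ (AlgEquiv.restrictNormalHom L g)) x = a - b := by
    rw [← hab]
    exact conj_eq hχ (CC_res hxC) hc
  obtain ⟨n, hn, h3⟩ := tor_core hC N hj h1 hxC h2
  refine ⟨n, hn, ?_⟩
  rw [A.val_infl ℚ L N χ hχ] at h3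
  exact h3

end Pool.Agent.W2helper23.DEL
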