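import Mathlib
import Pool.Agent.W2helper23.DEL.Dfc
import Pool.Agent.W2helper23.DEL.Tor
import Pool.Agent.K4H34.AL.Comb2
import Pool.Agent.W2helper1.SI.Rel

/-!
# The defects and ratios of the characters of arbitrary Galois extensions of number fields
-/

set_option autoImplicit false
set_option linter.unusedSectionVars false

namespace Pool.Agent.W2helper23.DEL

open NumberField Pool.Agent.K4H74 Pool.Agent.K4H74.ST Pool.Agent.K4H74.SK Pool.Agent.K4H34.AL

variable {F : Type} [Field F]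

section inv

variable (M : Mot F)

/-- the ratio as an inductive invariant -/
noncomputable def ratInv (τ : F →+* ℂ) : ArtinInvariant ℂˣ := ofQ (ratRule M τ)

/-- the defect as an inductive invariant -/
noncomputable def defInv (σ : ℂ ≃+* ℂ) (τ : F →+* ℂ) : ArtinInvariant ℂˣ := ofQ (defRule M σ τ)

variable {M}

lemma ratio_val (τ : F →+* ℂ) {x : Pair} (hx : IsChr x.2) :
    Ratio M τ x (pval (ratInv M τ) x : ℂˣ) := by
  intro N _ _ _ j
  have hx' : IsChar x.2 := isChr_iff.mp hx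
  have h1 : pval (ratInv M τ) x = (ratRule M τ).v N (induce N (K := x.1.K) (L := x.1.L) x.2) :=
    ofQ_val (ratRule M τ) hx' N j
  rw [h1]
  exact ratRule_spec M τ (induce_isChar j hx')

lemma defect_val (σ : ℂ ≃+* ℂ) (τ : F →+* ℂ) {x : Pair} (hx : IsChr x.2) :
    Defect M σ τ x (pval (defInv M σ τ) x) := by
  intro N _ _ _ j
  have hx' : IsChar x.2 := isChr_iff.mp hx
  have h1 : pval (defInv M σ τ) x
      = (defRule M σ τ).v N (induce N (K := x.1.K) (L := x.1.L) x.2) :=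
    ofQ_val (defRule M σ τ) hx' N j
  rw [h1]
  exact defRule_spec M σ τ (induce_isChar j hx')

lemma ratio_unique {τ : F →+* ℂ} {x : Pair} (hx : IsChr x.2) {r r' : ℂ} (h : Ratio M τ x r)
    (h' : Ratio M τ x r') : r = r' := by
  have hx' : IsChar x.2 := isChr_iff.mp hx
  obtain ⟨N, i1, i2, i3, i4⟩ := Pool.Agent.K4H34.ST.exists_gal x.1.L
  exact (h N (algebraMap x.1.L N)).unique (induce_isChar (algebraMap x.1.L N) hx')
    (h' N (algebraMap x.1.L N))

lemma defect_unique {σ : ℂ ≃+* ℂ} {τ : F →+* ℂ} {x : Pair} (hx : IsChr x.2) {u u' : ℂˣ}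
    (h : Defect M σ τ x u) (h' : Defect M σ τ x u') : u = u' := by
  have hx' : IsChar x.2 := isChr_iff.mp hx
  obtain ⟨N, i1, i2, i3, i4⟩ := Pool.Agent.K4H34.ST.exists_gal x.1.L
  exact (h N (algebraMap x.1.L N)).unique (induce_isChar (algebraMap x.1.L N) hx')
    (h' N (algebraMap x.1.L N))

lemma ratio_eq {τ : F →+* ℂ} {x : Pair} (hx : IsChr x.2) {r : ℂ} (h : Ratio M τ x r) :
    r = (pval (ratInv M τ) x : ℂˣ) := ratio_unique hx h (ratio_val τ hx)

lemma defect_eq {σ : ℂ ≃+* ℂ} {τ : F →+* ℂ} {x : Pair} (hx : IsChr x.2) {u : ℂˣ}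
    (h : Defect M σ τ x u) : u = pval (defInv M σ τ) x := defect_unique hx h (defect_val σ τ hx)

/-- all ratios and defects at once -/
noncomputable def bothInv (M : Mot F) :
    ArtinInvariant (((F →+* ℂ) → ℂˣ) × ((ℂ ≃+* ℂ) × (F →+* ℂ) → ℂˣ)) :=
  prodInv (piInv fun τ => ratInv M τ) (piInv fun p => defInv M p.1 p.2)

/-- the relations for the ratios and defects -/
theorem both_rel {y : Pair} {n r : ℕ} {x : Fin r → Pair} {k : Fin r → ℤ}
    (h : pval (bothInv M) y ^ n = ∏ i, pval (bothInv M) (x i) ^ k i) :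
    (∀ τ, pval (ratInv M τ) y ^ n = ∏ i, pval (ratInv M τ) (x i) ^ k i) ∧
    (∀ σ τ, pval (defInv M σ τ) y ^ n = ∏ i, pval (defInv M σ τ) (x i) ^ k i) := by
  refine ⟨fun τ => ?_, fun σ τ => ?_⟩
  · exact rel_map ((Pi.evalMonoidHom (fun _ : F →+* ℂ => ℂˣ) τ).comp (MonoidHom.fst _ _)) _ _
      (fun _ => rfl) h
  · exact rel_map ((Pi.evalMonoidHom (fun _ : (ℂ ≃+* ℂ) × (F →+* ℂ) => ℂˣ) (σ, τ)).comp
      (MonoidHom.snd _ _)) _ _ (fun _ => rfl) h

end inv

section main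

variable {M : Mot F}

/-- the multiplicative relations between Artin L-functions -/
theorem art_rel {r : ℕ} {x : Fin r → Pair} {k : Fin r → ℤ} (hx : ∀ i, IsChr (x i).2)
    (h : ∀ s : ℂ, 1 < s.re → ∀ l : Fin r → ℂ, (∀ i, HasSum (logTerm (x i).2 s) (l i)) →
      Complex.exp (∑ i, k i * l i) = 1) {A : ArtinInvariant ℂˣ} :
    ∏ i, pval A (x i) ^ k i = 1 := by
  refine Pool.Agent.W2helper1.SI.rel x k (fun i => isChr_iff.mp (hx i)) (fun s => ?_) A
  have h1 : ∀ i, HasSum (logTerm (x i).2 s.1) (∑' y, logTerm (x i).2 s.1 y) :=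
    fun i => (SK.logTerm_summable (x i).2 s.2).hasSum
  have h2 := h s.1 s.2 _ h1
  have h3 : ∀ i, Multiplicative.toAdd (pval logInv (x i)) s = ∑' y, logTerm (x i).2 s.1 y :=
    fun i => pval_log s.2 (h1 i)
  rw [Finset.sum_congr rfl fun i _ => by rw [h3 i]]
  exact h2

lemma isChr_one (E : Ext) : IsChr (fun _ : G E => (1 : ℂ)) := by
  have h1 := isChr_lin (E := E) 1
  have h2 : lin (1 : G E →* ℂˣ) = fun _ => 1 := by
    funext g
    simp [lin]
  rwa [h2] at h1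

/-- Deligne's conjecture up to sign -/
theorem sign_main (A : ArtinInvariant ℂˣ)
    (h1 : ∀ (K : Type) [Field K] [NumberField K], pval A ⟨⟨K, K⟩, fun _ => 1⟩ = 1)
    (h2 : ∀ E : Ext, IsTotallyComplex E.K → ∀ ψ : G E →* ℂˣ, Function.Injective ψ →
      pval A ⟨E, lin ψ⟩ = 1) {x : Pair} (hx : IsChr x.2) :
    (pval A x = 1 ∨ pval A x = -1) ∧ (Odd (Module.finrank x.1.K x.1.L) → pval A x = 1) := by
  have i1 : TrivOne A := fun K _ _ => h1 K
  have i2 : TrivComplex A := fun K L _ _ _ _ _ _ hK ψ hψ => h2 ⟨K, L⟩ hK ψ hψ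
  refine ⟨?_, fun ho => main_odd A i1 i2 x.1.K x.1.L ho x.2 (isChr_iff.mp hx)⟩
  have h3 : pval A x ^ 2 = 1 := main_sq A i1 i2 x.1.K x.1.L x.2 (isChr_iff.mp hx)
  have h4 : ((pval A x : ℂˣ) : ℂ) ^ 2 = 1 := by
    rw [← Units.val_pow_eq_pow_val, h3, Units.val_one]
  rw [pow_two] at h4
  rcases mul_self_eq_one_iff.mp h4 with h5 | h5
  · exact Or.inl (Units.ext h5)
  · exact Or.inr (Units.ext (by rw [h5]; simp))

/-- characters of arbitrary Galois extensions, for an invariant which is trivial over the totally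
complex fields and at the trivial character of `ℚ` -/
theorem tor_pair {Mg : Type} [CommGroup Mg] {A : ArtinInvariant Mg} (hC : TrivComplex A)
    (h1 : A.val ℚ ℚ (fun _ => 1) = 1) {x : Pair} (hx : IsChr x.2) :
    ∃ n : ℕ, 0 < n ∧ pval A x ^ n = 1 := by
  have hx' : IsChar x.2 := isChr_iff.mp hx
  obtain ⟨N, i1, i2, i3, i4⟩ := Pool.Agent.K4H34.ST.exists_gal x.1.L
  obtain ⟨θ, hθ, hA⟩ := Pool.Agent.W2helper1.SI.exists_over x.1 hx' N (algebraMap x.1.L N)
  obtain ⟨φ⟩ : Nonempty (N →+* ℂ) := inferInstance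
  obtain ⟨c, hc⟩ := exists_res (starRingEnd ℂ) φ
  have hcC : c ∈ CC ℚ N := ⟨φ, by ext y; exact (hc y).symm⟩
  obtain ⟨a, b, -, hab⟩ := exists_mult hθ (star_sq hc)
  obtain ⟨n, hn, h3⟩ := tor hC N hθ hcC hab
  refine ⟨n, hn, ?_⟩
  rw [h1, one_pow, one_pow, mul_one, one_pow, hA Mg A] at h3
  exact h3

/-- **the power form over `ℚ` and the totally complex fields** -/
theorem power_cx {Mg : Type} [CommGroup Mg] (A : ArtinInvariant Mg) (T : Pair → Prop)
    (h1 : T ⟨⟨ℚ, ℚ⟩, fun _ => 1⟩)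
    (h2 : ∀ E : Ext, IsTotallyComplex E.K → ∀ ψ : G E →* ℂˣ, Function.Injective ψ →
      T ⟨E, lin ψ⟩) {x : Pair} (hx : IsChr x.2) :
    ∃ n : ℕ, 0 < n ∧ ∃ (r : ℕ) (y : Fin r → Pair) (k : Fin r → ℤ), (∀ i, T (y i)) ∧
      pval A x ^ n = ∏ i, pval A (y i) ^ k i := by
  let P : Subgroup Mg := Subgroup.closure {y : Mg | ∃ x : Pair, T x ∧ y = pval A x}
  let B : ArtinInvariant (Mg ⧸ P) := mapInv (QuotientGroup.mk' P) A
  have hB : ∀ x : Pair, T x → B.val x.1.K x.1.L x.2 = 1 := by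
    intro x hx
    exact (QuotientGroup.eq_one_iff (N := P) _).mpr (Subgroup.subset_closure ⟨x, hx, rfl⟩)
  have i1 : B.val ℚ ℚ (fun _ => 1) = 1 := hB _ h1
  have i2 : TrivComplex B := fun K L _ _ _ _ _ _ hK ψ hψ => hB _ (h2 ⟨K, L⟩ hK ψ hψ)
  obtain ⟨n, hn, h3⟩ := tor_pair i2 i1 hx
  refine ⟨n, hn, closure_form A T ?_⟩
  have h6 : pval B x = QuotientGroup.mk' P (pval A x) := rfl
  rw [h6, ← map_pow] at h3
  exact (QuotientGroup.eq_one_iff _).mp h3

end main

end Pool.Agent.W2helper23.DEL
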